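import Pool.Agent.UD0.PhC

/-!
# Uniform definability of divisorial valuation rings: the full answer

One first-order formula `φ(x, y)` of the language of rings defines, with a suitable parameter, every
rank one divisorial valuation ring in every finitely generated field (any characteristic, any
Kronecker dimension).
-/

set_option autoImplicit false

namespace Pool.Agent.Results.MP_0f854b_lc.OneFormula

open FirstOrder

universe u

/-- `K` is finitely generated as a field over its prime field. -/
def FinGen (K : Type u) [Field K] : Prop :=
  ∃ s : Finset K, Subfield.closure (s : Set K) = ⊤

open Classical in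
/-- Kronecker dimension: the transcendence degree over the prime field `⊥`, plus `1` in
characteristic zero. -/
noncomputable def kroneckerDim (K : Type u) [Field K] : Cardinal.{u} :=
  Algebra.trdeg (⊥ : Subfield K) K + (if CharZero K then 1 else 0)

/-- `O` is the valuation ring of a rank one divisorial valuation: a discrete valuation ring whose
residue field is finitely generated and has Kronecker dimension one less than `K`. -/
structure Divisorial {K : Type u} [Field K] (O : ValuationSubring K) : Prop where
  dvr : IsDiscreteValuationRing O
  fg : FinGen (IsLocalRing.ResidueField O)
  dim : kroneckerDim (IsLocalRing.ResidueField O) + 1 = kroneckerDim K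

/-- `K ⊨ φ(v)`, where `K` is a structure for the language of rings in the usual way. -/
def Sat {K : Type u} [Field K] {n : ℕ} (φ : Language.ring.Formula (Fin n)) (v : Fin n → K) :
    Prop :=
  @Language.Formula.Realize Language.ring K
    (FirstOrder.Ring.compatibleRingOfRing K).toStructure (Fin n) φ v

/-- There is one formula which defines all the divisorial valuation rings of all finitely generated
fields. -/
theorem result : ∃ φ : Language.ring.Formula (Fin 2), ∀ (K : Type u) [Field K], FinGen K →
    ∀ O : ValuationSubring K, Divisorial O → ∃ a : K, ∀ x : K, x ∈ O ↔ Sat φ ![x, a] := by
  obtain ⟨φ, hφ⟩ := UD0.main_all.{u}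
  exact ⟨φ, fun K _ hK O hO => hφ K hK O ⟨hO.dvr, hO.fg, hO.dim⟩⟩

end Pool.Agent.Results.MP_0f854b_lc.OneFormula
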